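import Mathlib
import Pool.Agent.Helper20.EhrhartDefs
import Pool.Agent.Helper20.OrderPoly

set_option autoImplicit false

namespace Pool.Agent.Results.MP_d88d3c_co.TwoFewerDimensions

open Pool.Agent.Helper20.Ehrhart

/-- For every finite poset `α` whose order polytope is not the unit cube there is a lattice
polytope `P` of dimension `|α| - 2` with the same `h*`-polynomial as the order polytope. -/
theorem result (α : Type*) [PartialOrder α] [Finite α]
    (h : orderPolytope α ≠ {x : α → ℝ | ∀ a, 0 ≤ x a ∧ x a ≤ 1}) :
    ∃ (m : ℕ) (P : Set (Fin m → ℝ)), IsLatticePolytope P ∧ polyDim P + 2 = Nat.card α ∧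
      hStar P = hStar (orderPolytope α) :=
  Pool.Agent.Helper20.Ehrhart.main α h

end Pool.Agent.Results.MP_d88d3c_co.TwoFewerDimensions
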